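import Pool.Agent.Lib.MP_c8715f_al.CL.Main

open Pool.Agent.Lib.MP_c8715f_al Pool.Agent.Lib.MP_c8715f_al.CL

namespace Pool.Agent.Results.MP_c8715f_al.Carriers

/-- For an Abelian group `G`, the Pontryagin dual is an s-group for every non-separable metrizable
group topology on `G` if and only if `n • G` is countable for some `n ≥ 1` and `G` carries no
nonzero diffuse continuous submeasure. -/
theorem result (G : Type) [AddCommGroup G] :
    (∀ [TopologicalSpace G] [IsTopologicalAddGroup G] [TopologicalSpace.MetrizableSpace G],
      ¬ TopologicalSpace.SeparableSpace G → IsSGroup (PontryaginDual (Multiplicative G))) ↔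
    ((∃ n : ℕ, 1 ≤ n ∧ (Set.range fun x : G => n • x).Countable) ∧ ¬ CarriesSubmeasure G) :=
  main G

/-- The posed question: with `G = ℝ` the right side fails, so there is a non-separable metrizable
(hence Frechet-Urysohn and sequential) Abelian group whose dual is not an s-group. -/
theorem posed : ∃ (G : Type) (_ : AddCommGroup G) (_ : TopologicalSpace G),
    IsTopologicalAddGroup G ∧ T2Space G ∧ TopologicalSpace.MetrizableSpace G ∧
    FrechetUrysohnSpace G ∧ SequentialSpace G ∧ ¬ TopologicalSpace.SeparableSpace G ∧
    ¬ IsSGroup (PontryaginDual (Multiplicative G)) := by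
  have h := (result ℝ).not.2 (by
    rintro ⟨⟨n, hn, hc⟩, -⟩
    have : (Set.range fun x : ℝ => n • x) = Set.univ := by
      refine Set.eq_univ_of_forall fun y => ⟨y / n, ?_⟩
      have : (n : ℝ) ≠ 0 := by exact_mod_cast (by omega : n ≠ 0)
      simp only [nsmul_eq_mul]
      field_simp
    rw [this] at hc
    exact Set.not_countable_univ hc)
  by_contra hno
  refine h ?_
  intro τ h1 h2 hns
  by_contra hs
  exact hno ⟨ℝ, inferInstance, τ, h1, inferInstance, h2, inferInstance, inferInstance, hns, hs⟩

end Pool.Agent.Results.MP_c8715f_al.Carriers
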