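import Pool.Agent.Lib.MP_c8715f_al_SQ.Box

open Pool.Agent.Lib.MP_c8715f_al

namespace Pool.Agent.Results.MP_c8715f_al.SeqNotFU

/-- There is a sequential Hausdorff Abelian topological group that is not Frechet-Urysohn and
whose Pontryagin dual, with the compact-open topology, is not an s-group. -/
theorem result : ∃ (G : Type) (_ : AddCommGroup G) (_ : TopologicalSpace G),
    IsTopologicalAddGroup G ∧ T2Space G ∧ SequentialSpace G ∧ ¬ FrechetUrysohnSpace G ∧
    ¬ IsSGroup (PontryaginDual (Multiplicative G)) :=
  ⟨SQ.GS, inferInstance, inferInstance, inferInstance, inferInstance, inferInstance,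
    SQ.not_frechetUrysohn, SQ.not_isSGroup_GS⟩

end Pool.Agent.Results.MP_c8715f_al.SeqNotFU
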